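import Pool.Agent.MWA.StmtsB

/-!
# Squad MWA, row RDC (helper86): the common part of the systems b3 and b4
-/

set_option autoImplicit false

namespace Pool.Agent.MWA.H86

open Pool.Agent.Helper14_MV Pool.Agent.Helper2_MV Pool.Agent.MVO Pool.Agent.MWL Pool.Agent.MWS
open Pool.Agent.MWA

/-- **Row RDC.** -/
theorem rdc (hlgt : LgtStmt) (hrda : RdaStmt) (hbtf : BtfStmt) (hppp : PppStmt)
    (hlsm : LsmStmt) : RdcStmt := by
  intro β hβ hA hP hJ θ hθ k a b i j hda hdb hla hlb hji hab
  have hBs := BsA.mono hβ hθ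
  by_cases h1 : 2 ≤ a i ∨ 2 ≤ b i
  · left
    exact Bt.mono hθ (hrda β hβ hA k a b i hda hdb hla hlb h1)
  rw [not_or] at h1
  have hai : a i = 1 := by
    have h2 := hla.2.1
    have h3 := h1.1
    omega
  have hbi : b i = 1 := by
    have h2 := hlb.2.1
    have h3 := h1.2
    omega
  rcases Nat.lt_or_ge j i with hj | hj
  · by_cases h5 : ∃ r < i, AbF θ k b r
    · obtain ⟨r, hr, hbr⟩ := h5
      left
      exact hppp β hβ hP θ hθ k a b i j r hla hlb hj hr hab hbr
    · have h6 : ∀ r < i, ¬ AbF θ k b r := fun r hr h => h5 ⟨r, hr, h⟩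
      obtain ⟨p, hp⟩ := hlgt θ hBs.ap k b i 0 hdb hlb hbi (Or.inl rfl) (AbF.mono hθ hJ) h6
        (by intro h; omega)
      exact Or.inr ⟨hj, hlsm β hβ hJ θ hθ k a b i j p hda hla hai hj hab hp (h6 p hp.1), p, hp⟩
  · have hj' : j = i := le_antisymm hji hj
    subst hj'
    left
    have h2 : Lst k (a2 a j) j := by
      refine ⟨hla.1, ?_, ?_⟩
      · simp only [a2, if_true]
        omega
      · intro r hr hrk
        have h3 := hla.2.2 r hr hrk
        simp only [a2, h3, if_neg (by omega : ¬ r = j)]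
    have h3 : 2 ≤ deg k (a2 a j) := by
      refine le_trans hda ?_
      unfold deg
      exact Finset.sum_le_sum fun r _ => by
        simp only [a2]
        omega
    have h4 : Bt β k (a2 a j) b j := hrda β hβ hA k (a2 a j) b j h3 hdb h2 hlb
      (Or.inl (by simp only [a2, if_true]; omega))
    exact (hbtf θ k a (a2 a j) b b hab (θ.refl _)).2 j (Bt.mono hθ h4)

end Pool.Agent.MWA.H86
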